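import Pool.Agent.Helper96.CT.Stmts3

/-! Row NC. -/

set_option autoImplicit false

namespace Pool.Agent.Helper56.CT

open SimpleGraph Pool.Agent.Helper96.CT

/-- a walk that leaves a set -/
theorem nc_exit {W : Type} (T : SimpleGraph W) (U : Set W) {w y : W} (p : T.Walk w y) :
    ∀ (hw : w ∈ U), y ∉ U → ∃ (u v : W) (hu : u ∈ U), v ∉ U ∧ T.Adj u v ∧
      (T.induce U).Reachable ⟨w, hw⟩ ⟨u, hu⟩ := by
  induction p with
  | nil => exact fun hw hy => absurd hw hy
  | @cons a b d h p ih =>
    intro hw hy
    by_cases hb : b ∈ U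
    · obtain ⟨u, v, hu, hv, huv, hr⟩ := ih hb hy
      refine ⟨u, v, hu, hv, huv, Reachable.trans ?_ hr⟩
      apply Adj.reachable
      exact h
    · exact ⟨a, b, hw, hb, h, Reachable.refl _⟩

/-- a set with only one exit vertex is connected -/
theorem nc_conn {W : Type} (T : SimpleGraph W) (hT : T.Connected) (U : Set W) (x : W) (hx : x ∉ U)
    (hne : U.Nonempty)
    (h : ∀ u v u' v', u ∈ U → v ∉ U → T.Adj u v → u' ∈ U → v' ∉ U → T.Adj u' v' → u = u') :
    (T.induce U).Connected := by
  obtain ⟨w0, hw0⟩ := hne
  obtain ⟨p0⟩ := hT.preconnected w0 x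
  obtain ⟨u0, v0, hu0, hv0, huv0, _⟩ := nc_exit T U p0 hw0 hx
  haveI : Nonempty U := ⟨⟨w0, hw0⟩⟩
  have key : ∀ w : U, (T.induce U).Reachable w ⟨u0, hu0⟩ := by
    rintro ⟨w, hw⟩
    obtain ⟨p⟩ := hT.preconnected w x
    obtain ⟨u, v, hu, hv, huv, hr⟩ := nc_exit T U p hw hx
    have e := h u v u0 v0 hu hv huv hu0 hv0 huv0
    subst e
    exact hr
  exact Connected.mk fun u v => (key u).trans (key v).symm

theorem st_NC : ST_NC := by
  classical
  intro W V _ T F a c x hT hcard hB hCh hcont
  obtain ⟨f⟩ := hcont
  obtain ⟨h1, h2, h3⟩ := hCh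
  have hf : Function.Injective f := f.injective
  have hadj : ∀ u v, T.Adj u v → F.Adj (f u) (f v) := fun u v h => f.toHom.map_adj h
  obtain ⟨g, hg⟩ : ∃ g : W → ℕ, g = fun w => c (f w) := ⟨_, rfl⟩
  have hgv : ∀ w, g w = c (f w) := fun w => by rw [hg]
  have hstep : ∀ u v, T.Adj u v → g u = g v ∨ g v = g u + 1 ∨ g u = g v + 1 := by
    intro u v huv
    rw [hgv, hgv]
    exact h2 _ _ (hadj u v huv)
  -- uniqueness of the edges upwards
  have huniq : ∀ u v u' v', T.Adj u v → T.Adj u' v' → g v = g u + 1 → g v' = g u' + 1 →
      g u = g u' → u = u' ∧ v = v' := by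
    intro u v u' v' huv huv' e1 e2 e3
    rw [hgv, hgv] at e1 e2 e3
    obtain ⟨a1, a2⟩ := h3 _ _ _ _ (hadj u v huv) (hadj u' v' huv') e1 e2 e3
    exact ⟨hf a1, hf a2⟩
  have c1 : (Finset.univ.filter fun w => g w = g x).card ≤ a := by
    rw [← Finset.card_image_of_injective _ hf]
    apply h1 (g x)
    intro y hy
    obtain ⟨w, hw, rfl⟩ := Finset.mem_image.1 hy
    have := (Finset.mem_filter.1 hw).2
    rw [hgv] at this
    exact this
  have c2 : (Finset.univ.filter fun w => g x < g w).card ≤ a := by
    by_cases hne : (Finset.univ.filter fun w => g x < g w).Nonempty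
    · apply hB
      · simp
      · have e : ((Finset.univ.filter fun w => g x < g w : Finset W) : Set W) =
            {w | g x < g w} := by
          ext w
          simp
        rw [e]
        apply nc_conn T hT _ x (by simp)
        · obtain ⟨w, hw⟩ := hne
          exact ⟨w, (Finset.mem_filter.1 hw).2⟩
        · intro u v u' v' hu hv huv hu' hv' huv'
          simp only [Set.mem_setOf_eq, not_lt] at hu hv hu' hv'
          have s1 := hstep u v huv
          have s2 := hstep u' v' huv'
          exact (huniq v u v' u' huv.symm huv'.symm (by omega) (by omega) (by omega)).2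
    · rw [Finset.not_nonempty_iff_eq_empty] at hne
      rw [hne]
      simp
  have c3 : (Finset.univ.filter fun w => g w < g x).card ≤ a := by
    by_cases hne : (Finset.univ.filter fun w => g w < g x).Nonempty
    · apply hB
      · simp
      · have e : ((Finset.univ.filter fun w => g w < g x : Finset W) : Set W) =
            {w | g w < g x} := by
          ext w
          simp
        rw [e]
        apply nc_conn T hT _ x (by simp)
        · obtain ⟨w, hw⟩ := hne
          exact ⟨w, (Finset.mem_filter.1 hw).2⟩
        · intro u v u' v' hu hv huv hu' hv' huv'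
          simp only [Set.mem_setOf_eq, not_lt] at hu hv hu' hv'
          have s1 := hstep u v huv
          have s2 := hstep u' v' huv'
          exact (huniq u v u' v' huv huv' (by omega) (by omega) (by omega)).1
    · rw [Finset.not_nonempty_iff_eq_empty] at hne
      rw [hne]
      simp
  have hun : (Finset.univ : Finset W) ⊆ ((Finset.univ.filter fun w => g w = g x) ∪
      (Finset.univ.filter fun w => g x < g w)) ∪ (Finset.univ.filter fun w => g w < g x) := by
    intro w _
    simp only [Finset.mem_union, Finset.mem_filter, Finset.mem_univ, true_and]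
    omega
  have h5 := Finset.card_le_card hun
  have h6 := Finset.card_union_le ((Finset.univ.filter fun w => g w = g x) ∪
      (Finset.univ.filter fun w => g x < g w)) (Finset.univ.filter fun w => g w < g x)
  have h7 := Finset.card_union_le (Finset.univ.filter fun w => g w = g x)
      (Finset.univ.filter fun w => g x < g w)
  rw [Finset.card_univ] at h5
  omega

end Pool.Agent.Helper56.CT
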